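import Pool.Agent.Y152.RP.Stm2
import Pool.Agent.Y742.AR.Unit

/-!
# Project RP, the statement RP-CLASS: class sums of vanishing sums of germs of `S`-units
-/

set_option autoImplicit false

namespace Pool.Agent.Y405.RP

open Finset NumberField Pool.Agent.Y742.AR

/-- representatives -/
theorem exists_rep {A : Type} (R : A → A → Prop) (hR : Equivalence R) :
    ∃ f : A → A, (∀ a b, f a = f b ↔ R a b) ∧ ∀ a, f (f a) = f a := by
  let S : Setoid A := ⟨R, hR⟩
  have h1 : ∀ a b : A, (Quotient.mk S a).out = (Quotient.mk S b).out ↔ R a b := by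
    intro a b
    rw [Quotient.out_inj]
    exact Quotient.eq
  refine ⟨fun a => (Quotient.mk S a).out, h1, fun a => ?_⟩
  show (Quotient.mk S ((Quotient.mk S a).out)).out = (Quotient.mk S a).out
  rw [Quotient.out_eq]

theorem cls : Pool.Agent.Y152.RP.ClassStm := by
  classical
  intro K _ _ _ 𝒰 D n u hu hu1 hu2 hsum i s hs
  have hR : Equivalence (fun a b : Fin n => ∃ c : K, u a = cg 𝒰 c * u b) := by
    refine ⟨fun a => ⟨1, by rw [map_one, one_mul]⟩, ?_, ?_⟩
    · rintro a b ⟨c, hc⟩
      have hc0 : cg 𝒰 c ≠ 0 := by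
        intro h
        apply hu a
        rw [hc, h, zero_mul]
      refine ⟨c⁻¹, ?_⟩
      rw [map_inv₀, hc, inv_mul_cancel_left₀ hc0]
    · rintro a b d ⟨c, hc⟩ ⟨c', hc'⟩
      exact ⟨c * c', by rw [map_mul, hc, hc', mul_assoc]⟩
  obtain ⟨f, hf1, hf2⟩ := exists_rep _ hR
  have hc : ∀ a, ∃ c : K, u a = cg 𝒰 c * u (f a) := fun a => (hf1 a (f a)).mp (hf2 a).symm
  choose c hc using hc
  obtain ⟨S, hS⟩ : ∃ S : Finset (Fin n), S = Finset.univ.image f := ⟨_, rfl⟩
  let e : Fin (Fintype.card S) ≃ S := (Fintype.equivFin S).symm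
  have hfe : ∀ k, f (e k) = e k := by
    intro k
    have h1 : ((e k : S) : Fin n) ∈ Finset.univ.image f := by
      rw [← hS]
      exact (e k).2
    obtain ⟨a, -, ha⟩ := Finset.mem_image.1 h1
    rw [← ha, hf2]
  -- the class sums
  have hcl : ∀ b : Fin n, ∑ a ∈ univ.filter (fun a => f a = b), u a =
      cg 𝒰 (∑ a ∈ univ.filter (fun a => f a = b), c a) * u b := by
    intro b
    rw [map_sum, sum_mul]
    refine sum_congr rfl fun a ha => ?_
    conv_lhs => rw [hc a, (mem_filter.mp ha).2]
  have h0 := unit_ind D (Fintype.card S) (fun k => u (e k)) (fun k => hu _) (fun k => hu1 _)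
    (fun k => hu2 _) (by
      intro k l hkl d hd
      apply hkl
      have h2 : f (e k) = f (e l) := by
        refine (hf1 _ _).mpr ⟨d, ?_⟩
        rw [← hd, div_mul_cancel₀ _ (hu _)]
      rw [hfe, hfe] at h2
      exact e.injective (Subtype.ext h2))
    (fun k => ∑ a ∈ univ.filter (fun a => f a = e k), c a) (by
      have h2 : ∀ k, cg 𝒰 (∑ a ∈ univ.filter (fun a => f a = e k), c a) * u (e k) =
          ∑ a ∈ univ.filter (fun a => f a = e k), u a := fun k => (hcl (e k)).symm
      simp_rw [h2]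
      rw [e.sum_comp (fun b : S => ∑ a ∈ Finset.univ.filter (fun a => f a = b), u a)]
      rw [Finset.sum_coe_sort S (fun b => ∑ a ∈ Finset.univ.filter (fun a => f a = b), u a)]
      rw [Finset.sum_fiberwise_of_maps_to]
      · exact hsum
      · intro a _
        rw [hS]
        exact Finset.mem_image_of_mem _ (Finset.mem_univ a))
  have hfi : f i ∈ S := by
    rw [hS]
    exact mem_image_of_mem _ (mem_univ i)
  have h1 := congrFun h0 (e.symm ⟨f i, hfi⟩)
  simp only [Equiv.apply_symm_apply, Pi.zero_apply] at h1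
  have h2 : s = univ.filter (fun a => f a = f i) := by
    ext j
    rw [hs j, mem_filter, hf1]
    exact ⟨fun h => ⟨mem_univ _, h⟩, fun h => h.2⟩
  rw [h2, hcl, h1, map_zero, zero_mul]

end Pool.Agent.Y405.RP
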